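import Pool.Agent.H89.KD.Stmts
import Pool.Agent.H4.KH.TP2

/-!
# Project KD, module DNS: density of the classes of `-L u + c`
-/

set_option autoImplicit false

open MeasureTheory Set Filter Topology
open scoped ContDiff

namespace Pool.Agent.H59.KD

open Pool.Agent.H84 hiding cv mn
open Pool.Agent.H84.Sym Pool.Agent.H84.Sym.P2x Pool.Agent.H19.KL
open Pool.Agent.H73.KG Pool.Agent.H20.KH Pool.Agent.H89.KD

theorem dns_bcf {E : Type} [NormedAddCommGroup E] [InnerProductSpace ℝ E]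
    [FiniteDimensional ℝ E] [MeasurableSpace E] [BorelSpace E] {U : E → ℝ}
    (hp : IsProbabilityMeasure (mu U)) (h : Lp ℝ 2 (mu U)) {ε : ℝ} (hε : 0 < ε) :
    ∃ g : E → ℝ, GC g ∧ ‖h - tL U g‖ ≤ ε := by
  have hd : DenseRange (BoundedContinuousFunction.toLp (E := ℝ) 2 (mu U) ℝ) :=
    BoundedContinuousFunction.toLp_denseRange _ _ _ (by norm_num)
  obtain ⟨g, hg⟩ := hd.exists_dist_lt h hε
  have hG : GC (fun x => g x) := by
    refine ⟨g.continuous, Gr.of_bdd (A := ‖g‖) fun x => ?_⟩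
    rw [← Real.norm_eq_abs]
    exact g.norm_coe_le_norm x
  refine ⟨fun x => g x, hG, ?_⟩
  have hm : MemLp (fun x => g x) 2 (mu U) :=
    MemLp.of_bound g.continuous.aestronglyMeasurable ‖g‖
      (Eventually.of_forall fun x => g.norm_coe_le_norm x)
  have e : tL U (fun x => g x) = BoundedContinuousFunction.toLp (E := ℝ) 2 (mu U) ℝ g := by
    unfold tL
    rw [dif_pos hm]
    refine Lp.ext ?_
    filter_upwards [hm.coeFn_toLp, BoundedContinuousFunction.coeFn_toLp (μ := mu U) (p := 2) ℝ g]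
      with x h1 h2
    rw [h1, h2]
  rw [e, ← dist_eq_norm]
  exact hg.le

/-- module DNS -/
theorem dns_thm {E : Type} [NormedAddCommGroup E] [InnerProductSpace ℝ E]
    [FiniteDimensional ℝ E] [MeasurableSpace E] [BorelSpace E] (hMEM : MEMStmt E)
    (hTSF : TSFStmt E) : DNSStmt E := by
  intro U t hU ι _ b h ε hε
  obtain ⟨C, hC⟩ := hU.1
  obtain ⟨hm, hadd, hsmul, hin, hno, h1⟩ := hMEM U t hU
  obtain ⟨g, hg, hgh⟩ := dns_bcf hU.2 h (half_pos hε)
  obtain ⟨u, hu, hint⟩ := TP2_dense b hC hU.2 hg (ε := (ε / 2) ^ 2) (by positivity)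
  refine ⟨u, ∫ z, g z ∂(mu U), hu, ?_⟩
  set c := ∫ z, g z ∂(mu U) with hc
  have hX : GC (XU b U u c) := ((hTSF U t hU ι b).1 u hu).2.2.1 c
  have hX' : GC (fun x => (-1) * XU b U u c x) := GC.mul (GC.const _) hX
  have e1 : tL U g - tL U (XU b U u c) = tL U (fun x => g x + (-1) * XU b U u c x) := by
    rw [hadd _ _ hg hX', hsmul (-1) _ hX]
    simp [sub_eq_add_neg]
  have e2 : ‖tL U g - tL U (XU b U u c)‖ ^ 2 ≤ (ε / 2) ^ 2 := by
    rw [e1, hno _ (GC.add hg hX')]
    refine le_trans (le_of_eq ?_) hint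
    refine integral_congr_ae (Eventually.of_forall fun x => ?_)
    simp only [XU]
    ring
  have e3 : ‖tL U g - tL U (XU b U u c)‖ ≤ ε / 2 := by
    have := abs_le_of_sq_le_sq' e2 (by positivity)
    exact this.2
  calc ‖h - tL U (XU b U u c)‖ = ‖(h - tL U g) + (tL U g - tL U (XU b U u c))‖ := by
        congr 1
        abel
    _ ≤ ‖h - tL U g‖ + ‖tL U g - tL U (XU b U u c)‖ := norm_add_le _ _
    _ ≤ ε / 2 + ε / 2 := add_le_add hgh e3
    _ = ε := by ring

end Pool.Agent.H59.KD
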